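import Pool.Agent.U661.CH.Fin

/-!
# Comparison of Euler characteristics with those of ball quotients

Closed manifolds of nonpositive curvature are aspherical. Here the curvature tensor `R` is compared,
at each point, with the one of complex hyperbolic space.

`csf J t = unitT + t · skewCurv (kf J)`, with the Kähler form `kf J (x, y) = ⟨J x, y⟩` of an
orthogonal complex structure `J` of the tangent space and
`skewCurv A = 2 A(x,y) A(z,w) + A(x,z) A(y,w) - A(x,w) A(y,z)`; so `-k · csf J 1` is the curvature
tensor of complex hyperbolic space with sectional curvatures between `-4k` and `-k`.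
`JPos J P`: `P = κ · csf J t + ∑ hypCurv J (S c)` with `κ ≥ 0`, `-1/3 ≤ t ≤ 1` and the negatives
`hypCurv J (S c)` of the curvature tensors of complex hypersurfaces. `tot A D P` is the sum
`D + P + ∑ skewCurv (A a)` over any number of skew forms `A a` which are `AntiJ J`, that is of type
`(2,0) + (0,2)`.

(1) In every even dimension `2 m`: `(-1)^m` times the Gauss–Bonnet–Chern integrand of
`-(D + P + ∑ skewCurv (A a))` is at least the one of `-D`, for `JPos J` tensors `D`, `P`.
(2) The value for complex hyperbolic space is `(m+1)! (k/π)^m`.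
(3) The comparison with complex hyperbolic space, `D = k · csf J 1`.
(4) The integrated form, for fields of curvature tensors: for a closed manifold
`(-1)^m χ ≥ (m+1)!/π^m ∫ k^m`, with equality for ball quotients.

The proof of (1): polarisation with `J` turns the mixed terms into squares. The value (2): the
element of the curvature tensor is `8 (A B - U V)` for sums of null vectors (`pair_pow`).
-/

set_option autoImplicit false

namespace Pool.Agent.Results.MP_9d0d86_gt.BallQuotientComparison

open Pool.Agent.W666.GB Pool.Agent.W669.HD Pool.Agent.Y195.HF Pool.Agent.U661.HS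
open Pool.Agent.U661.CH

/-- The comparison theorem. -/
def Comparison : Prop :=
  ∀ (m : ℕ) (V : Type) [NormedAddCommGroup V] [InnerProductSpace ℝ V]
    (e : OrthonormalBasis (Fin m × Bool) ℝ V) (J : V →ₗ[ℝ] V) (n : ℕ) (A : Fin n → V → V → ℝ)
    (D P : V → V → V → V → ℝ), CStr J → (∀ a, SkewForm (A a)) → (∀ a, AntiJ J (A a)) →
    JPos J D → JPos J P → (-1) ^ m * gbc e (negT D) ≤ (-1) ^ m * gbc e (negT (tot A D P))

/-- The value for complex hyperbolic space. -/
def Value : Prop :=
  ∀ (m : ℕ) (V : Type) [NormedAddCommGroup V] [InnerProductSpace ℝ V]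
    (e : OrthonormalBasis (Fin m × Bool) ℝ V) (J : V →ₗ[ℝ] V) (k : ℝ), CStr J →
    (-1) ^ m * gbc e (negT fun x y z w => k * csf J 1 x y z w) =
      (m + 1).factorial * (k / Real.pi) ^ m

/-- The comparison with complex hyperbolic space. -/
def Ball : Prop :=
  ∀ (m : ℕ) (V : Type) [NormedAddCommGroup V] [InnerProductSpace ℝ V]
    (e : OrthonormalBasis (Fin m × Bool) ℝ V) (k : ℝ) (R : V → V → V → V → ℝ), 0 ≤ k →
    BallType k R → (m + 1).factorial * (k / Real.pi) ^ m ≤ (-1) ^ m * gbc e R

/-- The integrated form. -/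
def Integral : Prop :=
  ∀ (m : ℕ) (M : Type) [MeasurableSpace M] (μ : MeasureTheory.Measure M) (K : CurvField m M)
    (k : M → ℝ), (∀ p, 0 ≤ k p ∧ BallType (k p) (K.R p)) →
    0 ≤ (-1) ^ m * ∫ p, K.gb p ∂μ ∧
      (MeasureTheory.Integrable K.gb μ →
        ∫ p, (m + 1).factorial * (k p / Real.pi) ^ m ∂μ ≤ (-1) ^ m * ∫ p, K.gb p ∂μ) ∧
      (MeasureTheory.Integrable K.gb μ → μ {p | 0 < k p} ≠ 0 → 0 < (-1) ^ m * ∫ p, K.gb p ∂μ)

theorem result : Comparison ∧ Value ∧ Ball ∧ Integral :=
  ⟨fun _ _ _ _ e _ _ _ _ _ hJ hA hAJ hD hP => fixed_main hJ e hA hAJ hD hP,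
    fun _ _ _ _ e _ k hJ => gbc_ball_neg hJ e k,
    fun _ _ _ _ e _ _ hk h => ballType_bound e hk h,
    fun _ _ _ μ K k h => field_ball μ K k h⟩

end Pool.Agent.Results.MP_9d0d86_gt.BallQuotientComparison
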