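import Pool.Agent.U908.HS.Sharp

/-!
# The Gauss–Bonnet–Chern integrand of an arbitrary curvature tensor: a dimension-free inequality
# with the Hilbert–Schmidt distance from constant curvature

Let `n = 2 m` be the dimension, `c_m = roundGB m 1` the absolute value of the Gauss–Bonnet–Chern
integrand for constant curvature `1` or `-1`. For a curvature tensor `R` let `meanK` be the mean of
the numbers `-K` (`K` the sectional curvature) over the planes, `-scal / (n (n - 1))`, and let `dev`
be the deviation of `R` from constant curvature: the larger one of the Hilbert–Schmidt distances of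
`R` and of its Ricci tensor to those of the tensor of constant curvature `-meanK`, divided by `n`
(for constant curvature `κ` the Hilbert–Schmidt norms are of the order of `n κ` and `n ^ (3/2) κ`).

(1) For every algebraic curvature tensor, without any assumption on its size or its sign,
`|(-1) ^ m gbc R - c_m meanK ^ m| ≤ (3/10) c_m (|meanK| ^ m + (10 ^ 6 dev) ^ m)`.

(2) If all sectional curvatures are in `[-b, -a]`, `0 ≤ a`, then
`c_m ((7/10) a ^ m - (3/10) ((4/3) 10 ^ 6 √n (b - a)) ^ m) ≤ (-1) ^ m gbc R`. So the integrand has the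
sign of Hopf's conjecture as soon as `b - a ≤ (3/4) 10⁻⁶ a / √n` (the classical pinching conditions for
the conjecture have `n` instead of `√n`).

(3) Integrated over a manifold (a measure space with a field of curvature tensors) both sides of the
inequality are invariant under scaling: the sign of the Euler characteristic predicted by the
conjecture follows from a pinching condition for the `L ^ {n/2}` norm of the deviation with a constant
which does not depend on the dimension, `∫ (10 ^ 6 dev) ^ m ≤ ∫ meanK ^ m`, if the mean curvature is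
nonpositive, with the lower bound `(2/5) c_m ∫ meanK ^ m`; large curvature and positive sectional
curvatures are allowed on sets of small measure. (4) The same for the oscillation of the sectional
curvature.

(5) The condition is optimal up to the constant `10 ^ 6`: in every dimension `n ≥ 4` there is a
curvature tensor with sectional curvatures in `[-1, 0]` (the product of the hyperbolic space of
dimension `n - 1` and a line) with `dev ≤ (5/4) meanK` for which the integrand vanishes.
-/

set_option autoImplicit false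

namespace Pool.Agent.Results.MP_9d0d86_gt.HilbertSchmidtPinching

open Pool.Agent.W666.GB Pool.Agent.U908.HS MeasureTheory

/-- The inequality for arbitrary curvature tensors. -/
def Universal : Prop :=
  ∀ (m : ℕ) (V : Type) [NormedAddCommGroup V] [InnerProductSpace ℝ V]
    (e : OrthonormalBasis (Fin m × Bool) ℝ V) (R : V → V → V → V → ℝ), AlgCurv R →
    |(-1) ^ m * gbc e R - roundGB m 1 * meanK e R ^ m| ≤
      3 / 10 * roundGB m 1 * (|meanK e R| ^ m + (10 ^ 6 * dev e R) ^ m)

/-- Its form for the sectional curvature. -/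
def Sectional : Prop :=
  ∀ (m : ℕ) (V : Type) [NormedAddCommGroup V] [InnerProductSpace ℝ V]
    (e : OrthonormalBasis (Fin m × Bool) ℝ V) (R : V → V → V → V → ℝ) (a b : ℝ), 1 ≤ m →
    AlgCurv R → 0 ≤ a → SecIn R (-b) (-a) →
    roundGB m 1 * (7 / 10 * a ^ m - 3 / 10 * (4 / 3 * 10 ^ 6 * √(2 * m) * (b - a)) ^ m) ≤
      (-1) ^ m * gbc e R

/-- The integrated inequality, and the sign under `L ^ m` pinching. -/
def Integral : Prop :=
  ∀ (m : ℕ) (M : Type) [MeasurableSpace M] (μ : Measure M) (K : CurvField m M),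
    Integrable K.gb μ → Integrable (fun p => meanK (K.e p) (K.R p) ^ m) μ →
    Integrable (fun p => dev (K.e p) (K.R p) ^ m) μ →
    |(-1) ^ m * ∫ p, K.gb p ∂μ - roundGB m 1 * ∫ p, meanK (K.e p) (K.R p) ^ m ∂μ| ≤
      3 / 10 * roundGB m 1 * (∫ p, |meanK (K.e p) (K.R p)| ^ m ∂μ +
        ∫ p, (10 ^ 6 * dev (K.e p) (K.R p)) ^ m ∂μ) ∧
    ((∀ p, 0 ≤ meanK (K.e p) (K.R p)) →
      ∫ p, (10 ^ 6 * dev (K.e p) (K.R p)) ^ m ∂μ ≤ ∫ p, meanK (K.e p) (K.R p) ^ m ∂μ →
      2 / 5 * roundGB m 1 * ∫ p, meanK (K.e p) (K.R p) ^ m ∂μ ≤ (-1) ^ m * ∫ p, K.gb p ∂μ)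

/-- The integrated form for the sectional curvature. -/
def SectionalIntegral : Prop :=
  ∀ (m : ℕ) (M : Type) [MeasurableSpace M] (μ : Measure M) (K : CurvField m M) (a b : M → ℝ),
    1 ≤ m → Integrable K.gb μ → (∀ p, 0 ≤ a p) → (∀ p, SecIn (K.R p) (-b p) (-a p)) →
    Integrable (fun p => a p ^ m) μ → Integrable (fun p => (b p - a p) ^ m) μ →
    roundGB m 1 * (7 / 10 * ∫ p, a p ^ m ∂μ -
      3 / 10 * ∫ p, (4 / 3 * 10 ^ 6 * √(2 * m) * (b p - a p)) ^ m ∂μ) ≤
      (-1) ^ m * ∫ p, K.gb p ∂μ

/-- Optimality up to the absolute constant. -/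
def Optimal : Prop :=
  ∀ (m : ℕ) (V : Type) [NormedAddCommGroup V] [InnerProductSpace ℝ V]
    (e : OrthonormalBasis (Fin m × Bool) ℝ V), 2 ≤ m →
    ∃ R : V → V → V → V → ℝ, AlgCurv R ∧ SecIn R (-1) 0 ∧ 0 < meanK e R ∧
      dev e R ≤ 5 / 4 * meanK e R ∧ gbc e R = 0

theorem result : Universal ∧ Sectional ∧ Integral ∧ SectionalIntegral ∧ Optimal := by
  refine ⟨fun _ _ _ _ e _ hR => gbc_dev e hR,
    fun _ _ _ _ e _ _ _ hm hR ha hs => gbc_sec hm e hR ha hs,
    fun _ _ _ μ K hg h1 h2 => ⟨field_dev μ K hg h1 h2, field_sign μ K hg h1 h2⟩,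
    fun _ _ _ μ K _ _ hm hg ha hs h1 h2 => field_sec μ K hm hg ha hs h1 h2, ?_⟩
  intro m V _ _ e hm
  have hm0 : 0 < m := by omega
  have hm1 : (2 : ℝ) ≤ m := by exact_mod_cast hm
  refine ⟨prodT (e (⟨0, hm0⟩, true)), prodT_curv _, prodT_sec (e.orthonormal.1 _), ?_,
    prodT_dev e _ hm, prodT_gbc e _⟩
  rw [prodT_mean e _ hm0]
  exact div_pos (by linarith) (by linarith)

end Pool.Agent.Results.MP_9d0d86_gt.HilbertSchmidtPinching
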