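import Pool.Agent.U486.SN.Neg

/-!
# The Hopf–Singer sign in dimension six for strongly nonpositive curvature with an upper bound of
the curvature operator

A curvature tensor is strongly nonpositive (`StrongNonpos`) if it becomes nonpositive on all
bivectors after adding a `4`-form.

In dimension six, let `F` be an algebraic curvature tensor with nonnegative curvature operator (for
instance `F = κ R₀`, of constant curvature `κ ≥ 0`), and suppose that

* `R + F` is strongly nonpositive, and
* the curvature operator of `R` is at most the one of `2 F`.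

Then `(-1)³` times the Gauss–Bonnet–Chern integrand of `R` is at least the integrand of `F`. For
`F = κ R₀`: the sign `(-1)³ χ ≥ 0` holds for closed six-manifolds such that `R + κ` is strongly
nonpositive and all eigenvalues of the curvature operator are at most `2 κ`, and for
`-R = N + κ R₀ + ∑ skewCurv (A s)`, where `N` is nonnegative on all bivectors and the `A s` are any
number of skew forms with `∑ |A s|² ≤ 3 κ`. (In `StronglyNonpositivePinched` the bounds in dimension
six are `κ / 2` and `3 κ / 2`; by the example there the last bound cannot be omitted.)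

The proof: with `S = -(R + F)` one has, for the symmetric trilinear form `E` of the integrand,
`E(-R,-R,-R) = E(F,F,F) + 3 E(F,F,S) + E(2 F - R,S,S)`, and the new point is that `E(P,S,S) ≥ 0` if
the curvature operator of `P` is nonnegative and `S` is strongly nonnegative
(`Pool/Agent/U486/SN/`): for `P = ∑ B j ⊗ B j` and `S = ∑ skewCurv (A k)` one has
`E(P,S,S) = c ∑ W (B j)` with a quadratic form `W` which is nonnegative on all bivectors `B` with
`B ∧ B ∧ B = 0` (these have a kernel vector, so that the form `A, A' ↦ A ∧ A' ∧ B` vanishes on a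
subspace of codimension five), and any such form satisfies `∑ W (B j) ≥ 0` if
`∑ B j ∧ B j = 0` (`cub_quad`).
-/

set_option autoImplicit false

namespace Pool.Agent.Results.MP_9d0d86_gt.StronglyNonpositiveDimSix

open MeasureTheory
open Pool.Agent.U486.SN (ComparesNegSix PinchedNegSix ManySkewNegSix)
open Pool.Agent.W666.GB (AlgCurv gbc roundGB CurvField)

theorem result :
    -- comparison with a tensor `F` whose curvature operator is nonnegative
    (∀ (V : Type) [NormedAddCommGroup V] [InnerProductSpace ℝ V]
      (e : OrthonormalBasis (Fin 3 × Bool) ℝ V) (R F : V → V → V → V → ℝ),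
      AlgCurv R → ComparesNegSix F R → gbc e F ≤ (-1) ^ 3 * gbc e R ∧ 0 ≤ gbc e F) ∧
    -- comparison with the constant curvature `-κ`
    (∀ (V : Type) [NormedAddCommGroup V] [InnerProductSpace ℝ V]
      (e : OrthonormalBasis (Fin 3 × Bool) ℝ V) (R : V → V → V → V → ℝ) (κ : ℝ),
      AlgCurv R → 0 ≤ κ → PinchedNegSix κ R → roundGB 3 κ ≤ (-1) ^ 3 * gbc e R) ∧
    -- any number of skew forms
    (∀ (V : Type) [NormedAddCommGroup V] [InnerProductSpace ℝ V]
      (e : OrthonormalBasis (Fin 3 × Bool) ℝ V) (R : V → V → V → V → ℝ) (κ : ℝ),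
      AlgCurv R → 0 ≤ κ → ManySkewNegSix κ R → roundGB 3 κ ≤ (-1) ^ 3 * gbc e R) ∧
    -- the integrated forms
    (∀ (M : Type) [MeasurableSpace M] (μ : Measure M) (K : CurvField 3 M),
      (∀ p, ∃ F, ComparesNegSix F (K.R p)) → 0 ≤ (-1) ^ 3 * ∫ p, K.gb p ∂μ) ∧
    (∀ (M : Type) [MeasurableSpace M] (μ : Measure M) [IsFiniteMeasure μ] (K : CurvField 3 M)
      (κ : ℝ), 0 ≤ κ → Integrable K.gb μ → (∀ p, PinchedNegSix κ (K.R p)) →
        roundGB 3 κ * μ.real Set.univ ≤ (-1) ^ 3 * ∫ p, K.gb p ∂μ) :=
  ⟨fun _ _ _ e _ _ hR h => Pool.Agent.U486.SN.compares_neg_six e hR h,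
    fun _ _ _ e _ _ hR hκ h => Pool.Agent.U486.SN.pinched_neg_six e hR hκ h,
    fun _ _ _ e _ _ hR hκ h => Pool.Agent.U486.SN.many_pinched_neg_six e hR hκ h,
    fun _ _ μ K h => Pool.Agent.U486.SN.field_neg_six μ K h,
    fun _ _ μ _ K κ hκ hi h => Pool.Agent.U486.SN.field_neg_six' μ K κ hκ hi h⟩

end Pool.Agent.Results.MP_9d0d86_gt.StronglyNonpositiveDimSix
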