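import Pool.Agent.U486.SN.Null

/-!
# The Gauss–Bonnet–Chern integrand of the sum of a nonpositive curvature operator and a strongly
nonpositive curvature tensor in dimension six

A curvature tensor is strongly nonpositive (`StrongNonpos`) if it becomes nonpositive on all
bivectors after adding a `4`-form; such a tensor has nonpositive sectional curvature, but its
curvature operator may be indefinite and its Gauss–Bonnet–Chern integrand may have the wrong sign.

In dimension six let `R₁` be an algebraic curvature tensor with nonpositive curvature operator and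
`R₂` a strongly nonpositive one. With `E = (-1)³` times the Gauss–Bonnet–Chern integrand:

(1) `E(R₁ + R₂) ≥ E(R₁) + E(R₂)`;
(2) `E(R₁ + R₂) ≥ 0` for all `R₁` if and only if `E(R₂) ≥ 0`;
(3) in particular, `E(R₁ + R₂) ≥ 0` for all `R₁` if `R₂` has a nullity vector (as for the curvature
tensor of the product of a line and a five-manifold of strongly nonpositive curvature);
(4) the integral of `E` is nonnegative for a field of such sums.

The proof of (1): for the symmetric trilinear form of the integrand,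
`E(-R₁-R₂) = E(-R₁) + E(-R₂) + 3 E(-R₁,-R₁,-R₂) + 3 E(-R₁,-R₂,-R₂)`; the last term is nonnegative by
the new inequality `E(P,S,S) ≥ 0` for `P` with nonnegative curvature operator and `S` strongly
nonnegative (`Pool/Agent/U486/SN/`).
-/

set_option autoImplicit false

namespace Pool.Agent.Results.MP_9d0d86_gt.StronglyNonpositiveSuperadditive

open MeasureTheory
open Pool.Agent.U486.SN (StrongNonpos SumNeg)
open Pool.Agent.W666.GB (AlgCurv gbc CurvField)
open Pool.Agent.W669.HD (addT negT OpNonneg)

theorem result :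
    -- superadditivity
    (∀ (V : Type) [NormedAddCommGroup V] [InnerProductSpace ℝ V]
      (e : OrthonormalBasis (Fin 3 × Bool) ℝ V) (R₁ R₂ : V → V → V → V → ℝ),
      AlgCurv R₁ → OpNonneg (negT R₁) → AlgCurv R₂ → StrongNonpos R₂ →
        (-1) ^ 3 * gbc e R₁ + (-1) ^ 3 * gbc e R₂ ≤ (-1) ^ 3 * gbc e (addT R₁ R₂)) ∧
    -- the criterion
    (∀ (V : Type) [NormedAddCommGroup V] [InnerProductSpace ℝ V]
      (e : OrthonormalBasis (Fin 3 × Bool) ℝ V) (R₂ : V → V → V → V → ℝ),
      AlgCurv R₂ → StrongNonpos R₂ →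
      ((∀ R₁ : V → V → V → V → ℝ, AlgCurv R₁ → OpNonneg (negT R₁) →
        0 ≤ (-1) ^ 3 * gbc e (addT R₁ R₂)) ↔ 0 ≤ (-1) ^ 3 * gbc e R₂)) ∧
    -- tensors with a nullity vector
    (∀ (V : Type) [NormedAddCommGroup V] [InnerProductSpace ℝ V]
      (e : OrthonormalBasis (Fin 3 × Bool) ℝ V) (R : V → V → V → V → ℝ), SumNeg e R →
        0 ≤ (-1) ^ 3 * gbc e R) ∧
    -- the integrated form
    (∀ (M : Type) [MeasurableSpace M] (μ : Measure M) (K : CurvField 3 M),
      (∀ p, SumNeg (K.e p) (K.R p)) → 0 ≤ (-1) ^ 3 * ∫ p, K.gb p ∂μ) :=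
  ⟨fun _ _ _ e _ _ h₁ hn h₂ hs => Pool.Agent.U486.SN.super_neg e h₁ hn h₂ hs,
    fun _ _ _ e _ h₂ hs => Pool.Agent.U486.SN.iff_neg e h₂ hs,
    fun _ _ _ e _ h => Pool.Agent.U486.SN.sum_neg e h,
    fun _ _ μ K h => Pool.Agent.U486.SN.field_sum_neg μ K h⟩

end Pool.Agent.Results.MP_9d0d86_gt.StronglyNonpositiveSuperadditive
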